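import Mathlib
import Pool.Agent.Erdos456.P6

set_option autoImplicit false

open scoped ENNReal
open Filter Topology

namespace Pool.Agent.Y845.Log456
open Pool.Agent.Erdos456

/-- the harmonic sum over the members of `E` up to `x` -/
noncomputable def hs (E : Set ℕ) (x : ℕ) : ℝ := ∑ n ∈ Finset.Icc 1 x, E.indicator (fun n : ℕ => 1 / (n : ℝ)) n

theorem hs_nonneg (E : Set ℕ) (x : ℕ) : 0 ≤ hs E x :=
  Finset.sum_nonneg fun n _ => Set.indicator_nonneg (fun _ _ => by positivity) n

/-- mass below `x` is at most the harmonic sum -/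
theorem mu_head_le {σ : ℝ} (hσ : 1 < σ) (E : Set ℕ) (x : ℕ) :
    mu σ (E ∩ Set.Iic x) ≤ ENNReal.ofReal (hs E x) := by
  unfold mu hs
  rw [tsum_eq_sum (s := Finset.Icc 1 x), ENNReal.ofReal_sum_of_nonneg
    (fun n _ => Set.indicator_nonneg (fun _ _ => by positivity) n)]
  · apply Finset.sum_le_sum
    intro n hn
    have hn1 := (Finset.mem_Icc.mp hn).1
    by_cases hE : n ∈ E
    · rw [Set.indicator_of_mem hE]
      refine le_trans ?_ ((zp_le_inv hσ hn1).trans_eq (by rw [one_div]))
      exact Set.indicator_le_self' (fun _ _ => zero_le) n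
    · rw [Set.indicator_of_notMem (fun h => hE h.1)]
      exact zero_le
  · intro n hn
    by_cases h : n ∈ E ∩ Set.Iic x
    · rw [Set.indicator_of_mem h]
      have h0 : n = 0 := by
        by_contra h0
        exact hn (Finset.mem_Icc.mpr ⟨by omega, h.2⟩)
      rw [h0, zp_zero (by linarith)]
    · rw [Set.indicator_of_notMem h]

/-- mass above `x` -/
theorem mu_tail_le {L : ℝ} (hL : 1 ≤ L) {x : ℕ} (hx : 1 ≤ x) :
    mu (1 + 1 / (2 * L)) (Set.Ioi x) ≤
      ENNReal.ofReal ((x : ℝ) ^ (-(1 / (4 * L))) * (5 * L)) := by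
  have hL0 : 0 < L := by linarith
  have h4 : 0 < 1 / (4 * L) := by positivity
  have hx0 : (0:ℝ) < x := by exact_mod_cast hx
  have h1 : mu (1 + 1 / (2 * L)) (Set.Ioi x) ≤
      ENNReal.ofReal ((x : ℝ) ^ (-(1 / (4 * L)))) * ZZ (1 + 1 / (4 * L)) := by
    unfold mu ZZ
    rw [← ENNReal.tsum_mul_left]
    apply ENNReal.tsum_le_tsum
    intro n
    by_cases hn : n ∈ Set.Ioi x
    · rw [Set.indicator_of_mem hn]
      have hxn : (x:ℝ) ≤ n := by exact_mod_cast (le_of_lt hn)
      have hn0 : (0:ℝ) < n := lt_of_lt_of_le hx0 hxn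
      unfold zp
      rw [← ENNReal.ofReal_mul (by positivity)]
      apply ENNReal.ofReal_le_ofReal
      have e : -(1 + 1 / (2 * L)) = -(1 / (4 * L)) + -(1 + 1 / (4 * L)) := by
        field_simp; ring
      rw [e, Real.rpow_add hn0]
      gcongr ?_ * _
      exact Real.rpow_le_rpow_of_nonpos hx0 hxn (by linarith)
    · rw [Set.indicator_of_notMem hn]; exact zero_le
  refine h1.trans ?_
  rw [ENNReal.ofReal_mul (by positivity)]
  gcongr
  refine (ZZ_le (by linarith)).trans (ENNReal.ofReal_le_ofReal ?_)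
  have : 1 / (1 + 1 / (4 * L) - 1) = 4 * L := by
    rw [add_sub_cancel_left, one_div_one_div]
  rw [this]; linarith

/-- positive lower logarithmic density of the equality set inside every set of density one -/
theorem log_density : ∃ c : ℝ, 0 < c ∧ ∀ S : Set ℕ,
      Tendsto (fun N : ℕ => ((S ∩ Set.Iio N).ncard : ℝ) / (N : ℝ)) atTop (𝓝 1) →
        ∀ᶠ x : ℕ in atTop, c * Real.log x ≤ hs (EqS ∩ S) x := by
  obtain ⟨κ, hκ, L₀, hL₀, h⟩ := eq_weight'
  set A : ℝ := Real.log (20 / κ + 3) with hA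
  have hA0 : 0 < A := Real.log_pos (by have : 0 < 20 / κ := by positivity
                                       linarith)
  refine ⟨κ / (16 * A), by positivity, ?_⟩
  intro S hS
  obtain ⟨K, hK, hz⟩ := mu_density_zero (compl_density hS) (κ / 4) (by positivity)
  have hlog : Tendsto (fun x : ℕ => Real.log x / (4 * A)) atTop atTop :=
    (Real.tendsto_log_atTop.comp tendsto_natCast_atTop_atTop).atTop_div_const (by positivity)
  filter_upwards [hlog.eventually (eventually_ge_atTop (max L₀ (4 * K / κ))), eventually_ge_atTop 1] with x hx hx1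
  set L : ℝ := Real.log x / (4 * A) with hL
  have hLa : L₀ ≤ L := (le_max_left _ _).trans hx
  have hLb : 4 * K / κ ≤ L := (le_max_right _ _).trans hx
  have hL1 : 1 ≤ L := hL₀.trans hLa
  have hL0 : 0 < L := by linarith
  have hx0 : (0:ℝ) < x := by exact_mod_cast hx1
  have hσ : 1 < 1 + 1 / (2 * L) := by
    have : 0 < 1 / (2 * L) := by positivity
    linarith
  have hsub : EqS ⊆ (((EqS ∩ S) ∩ Set.Iic x) ∪ Set.Ioi x) ∪ Sᶜ := by
    intro n hn
    by_cases hnS : n ∈ S
    · left
      by_cases hnx : n ≤ x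
      · left; exact ⟨⟨hn, hnS⟩, hnx⟩
      · right; exact lt_of_not_ge hnx
    · right; exact hnS
  have htail : (x : ℝ) ^ (-(1 / (4 * L))) * (5 * L) ≤ κ / 4 * L := by
    have e1 : (x : ℝ) ^ (-(1 / (4 * L))) = (20 / κ + 3)⁻¹ := by
      have hlx : Real.log x = 4 * A * L := by rw [hL]; field_simp
      rw [Real.rpow_def_of_pos hx0, hlx]
      have : 4 * A * L * -(1 / (4 * L)) = -A := by field_simp
      rw [this, Real.exp_neg, hA, Real.exp_log (by positivity)]
    rw [e1]
    have h3 : (20 / κ + 3)⁻¹ ≤ κ / 20 := by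
      rw [inv_le_comm₀ (by positivity) (by positivity), inv_div]
      linarith
    calc (20 / κ + 3)⁻¹ * (5 * L) ≤ κ / 20 * (5 * L) := by gcongr
      _ = κ / 4 * L := by ring
  have hmain : ENNReal.ofReal (κ * L) ≤ ENNReal.ofReal (hs (EqS ∩ S) x + κ / 4 * L + (K + κ / 4 * L)) := by
    rw [ENNReal.ofReal_add (add_nonneg (hs_nonneg _ _) (by positivity)) (by positivity),
      ENNReal.ofReal_add (hs_nonneg _ _) (by positivity)]
    calc ENNReal.ofReal (κ * L) ≤ mu (1 + 1 / (2 * L)) EqS := h L hLa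
      _ ≤ _ := mu_mono _ hsub
      _ ≤ _ := mu_union_le _ _ _
      _ ≤ _ := by
        gcongr
        · refine (mu_union_le _ _ _).trans ?_
          gcongr
          · exact mu_head_le hσ _ _
          · exact (mu_tail_le hL1 hx1).trans (ENNReal.ofReal_le_ofReal htail)
        · exact hz L hL1
  have h5 := (ENNReal.ofReal_le_ofReal_iff (by
    have := hs_nonneg (EqS ∩ S) x
    positivity)).mp hmain
  have h6 : K ≤ κ / 4 * L := by
    rw [div_le_iff₀ hκ] at hLb
    linarith
  have h7 : κ / (16 * A) * Real.log x = κ / 4 * L := by rw [hL]; field_simp; ring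
  rw [h7]; linarith

end Pool.Agent.Y845.Log456
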